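import Pool.Agent.P.MP_998457_co.Main

open Pool.Agent.P.MP_998457_co

namespace Pool.Agent.Results.MP_998457_co.Counterexample

theorem result : ∀ C : ℕ, ∃ (m n : ℕ) (H : Matrix (Fin m) (Fin n) (ZMod 2)),
    (∃ x : Fin n → ZMod 2, x ≠ 0 ∧ Matrix.mulVec H x = 0) ∧
    (∀ i, hammingNorm (H i) = 2) ∧ (∀ j, hammingNorm (Matrix.transpose H j) ≤ 4) ∧
    Function.Injective H ∧
    C * barrier (tensor H H) < min (minDist H * barrier H) (barrier H * minDist H) :=
  main

end Pool.Agent.Results.MP_998457_co.Counterexample
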